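import Mathlib
import Pool.Agent.H443R3.Erg
import Pool.Agent.H443R3.Movers3

set_option autoImplicit false

open MeasureTheory ProbabilityTheory Filter Topology
open scoped ENNReal Pointwise

/-!
# A uniformly ergodic cellular automaton that is not exponentially ergodic, part 1

Walkers on `ℤ` perform coalescing random walks with steps `-1` and `-2`.  (Adapted from the file
`Pool/Agent/H443R3/Movers1.lean`, which has in addition right-movers.)
-/

namespace Pool.Agent.W34.CRW

open Pool.Agent.H443R3
open Pool.Agent.H443R3.Movers (s s_add s_inj s_apply_zero W W_zero_right W_nonneg W_le_one W_mono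
  W_tendsto ofReal_W_succ)

/-- The alphabet: `0` when there is no walker, `1` for a walker that is about to make a step `-1`,
and `2` for a walker that is about to make a step `-2`. -/
abbrev Sy : Type := Fin 3

/-- Is there a walker at the next time? (`r, t` are the symbols at `1, 2`.) -/
def oc (r t : Sy) : Bool := (r == 1) || (t == 2)

/-- The law of the new symbol. -/
noncomputable def law (o : Bool) : PMF Sy :=
  if o = true then
    PMF.uniformOfFinset ({1, 2} : Finset Sy) (Finset.insert_nonempty _ _)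
  else PMF.pure 0

/-- The automaton. -/
noncomputable def Φ : PCA 1 Sy where
  nbhd := {s 1, s 2}
  rule := fun u => law (oc (u ⟨s 1, by simp⟩) (u ⟨s 2, by simp⟩))

/-- The next occupation at `j`. -/
def oX (x : Config 1 Sy) (j : ℤ) : Bool := oc (x (s (j + 1))) (x (s (j + 2)))

/-- The law of the new symbol at the site `i`. -/
noncomputable def nu (x : Config 1 Sy) (i : Site 1) : Measure Sy :=
  (Φ.rule (Φ.pattern x i)).toMeasure

instance (x : Config 1 Sy) (i : Site 1) : IsProbabilityMeasure (nu x i) := by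
  unfold nu; infer_instance

theorem step_eq (x : Config 1 Sy) : Φ.step x = Measure.infinitePi (nu x) := rfl

theorem nu_eq (x : Config 1 Sy) (j : ℤ) : nu x (s j) = (law (oX x j)).toMeasure := by
  unfold nu Φ PCA.pattern
  simp only [s_add]
  rfl

/-! ### One-site computations -/

theorem lintegral_law (o : Bool) (g : Sy → ℝ≥0∞) :
    ∫⁻ w, g w ∂(law o).toMeasure =
      if o = true then (g 1 + g 2) / 2 else g 0 := by
  have h : ∀ w : Sy, (law o).toMeasure {w} = law o w := fun w =>
    PMF.toMeasure_apply_singleton _ _ (MeasurableSet.singleton w)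
  rw [lintegral_fintype]
  simp only [h]
  unfold law
  cases o with
  | true =>
    simp only [if_true, PMF.uniformOfFinset_apply, Fin.sum_univ_three]
    simp [ENNReal.div_eq_inv_mul, mul_add, mul_comm]
  | false =>
    simp only [Bool.false_eq_true, if_false, PMF.pure_apply, Fin.sum_univ_three]
    simp

/-- No walker about to make a step `-1`. -/
noncomputable def β (w : Sy) : ℝ≥0∞ := if w ≠ 1 then 1 else 0

/-- No walker about to make a step `-2`. -/
noncomputable def γ (w : Sy) : ℝ≥0∞ := if w ≠ 2 then 1 else 0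

/-- Vacancy at the next time. -/
noncomputable def z (x : Config 1 Sy) (j : ℤ) : ℝ≥0∞ := β (x (s (j + 1))) * γ (x (s (j + 2)))

theorem z_eq (x : Config 1 Sy) (j : ℤ) : z x j = if oX x j = true then 0 else 1 := by
  unfold z β γ oX oc
  by_cases h2 : (x (s (j + 1))) = 1 <;>
    by_cases h3 : (x (s (j + 2))) = 2 <;> simp [h2, h3]

theorem int_β (x : Config 1 Sy) (j : ℤ) : ∫⁻ w, β w ∂(nu x (s j)) = (1 + z x j) / 2 := by
  rw [nu_eq, lintegral_law, z_eq]
  unfold β
  split_ifs <;> simp_all
  · rw [one_add_one_eq_two, ENNReal.div_self (by simp) (by simp)]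

theorem int_γ (x : Config 1 Sy) (j : ℤ) : ∫⁻ w, γ w ∂(nu x (s j)) = (1 + z x j) / 2 := by
  rw [nu_eq, lintegral_law, z_eq]
  unfold γ
  split_ifs <;> simp_all
  · rw [one_add_one_eq_two, ENNReal.div_self (by simp) (by simp)]

theorem int_βγ (x : Config 1 Sy) (j : ℤ) : ∫⁻ w, β w * γ w ∂(nu x (s j)) = z x j := by
  rw [nu_eq, lintegral_law, z_eq]
  unfold β γ
  split_ifs <;> simp_all

/-! ### Transition probabilities of products -/

theorem dependsOn_site (g : Sy → ℝ≥0∞) (j : ℤ) :
    DependsOn (fun y : Config 1 Sy => g (y (s j))) (({s j} : Finset (Site 1)) : Set (Site 1)) := by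
  intro x y hxy
  have : x (s j) = y (s j) := hxy _ (by simp)
  simp only [this]

theorem op_site (g : Sy → ℝ≥0∞) (j : ℤ) (x : Config 1 Sy) :
    Φ.op (fun y => g (y (s j))) x = ∫⁻ w, g w ∂(nu x (s j)) := by
  unfold PCA.op
  rw [step_eq]
  exact (measurePreserving_eval_infinitePi (nu x) (s j)).lintegral_comp (Measurable.of_discrete)

theorem dependsOn_range (h : Sy → ℝ≥0∞) (a : ℤ) (n : ℕ) :
    DependsOn (fun y : Config 1 Sy => ∏ k ∈ Finset.range n, h (y (s (a + k))))
      (((Finset.range n).image (fun k : ℕ => s (a + k)) : Finset (Site 1)) : Set (Site 1)) := by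
  intro x y hxy
  show ∏ k ∈ Finset.range n, h (x (s (a + k))) = ∏ k ∈ Finset.range n, h (y (s (a + k)))
  apply Finset.prod_congr rfl
  intro k hk
  rw [hxy (s (a + k)) (Finset.mem_coe.2 (Finset.mem_image_of_mem (fun k : ℕ => s (a + k)) hk))]

theorem op_range (h : Sy → ℝ≥0∞) (a : ℤ) (n : ℕ) (x : Config 1 Sy) :
    Φ.op (fun y => ∏ k ∈ Finset.range n, h (y (s (a + k)))) x =
      ∏ k ∈ Finset.range n, ∫⁻ w, h w ∂(nu x (s (a + k))) := by
  induction n with
  | zero => simp [PCA.op]
  | succ n ih =>
    have e : (fun y : Config 1 Sy => ∏ k ∈ Finset.range (n + 1), h (y (s (a + k)))) =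
        fun y => (∏ k ∈ Finset.range n, h (y (s (a + k)))) * h (y (s (a + n))) := by
      funext y
      exact Finset.prod_range_succ (fun k : ℕ => h (y (s (a + k)))) n
    have e2 := congrFun (Φ.op_mul (dependsOn_range h a n) (dependsOn_site h (a + n)) (by
      rw [Finset.disjoint_singleton_right, Finset.mem_image]
      rintro ⟨k, hk, hke⟩
      have := s_inj hke
      rw [Finset.mem_range] at hk
      omega)) x
    rw [e, Finset.prod_range_succ, ← ih, ← op_site]
    exact e2

/-- The interval `[a, a+n)` is vacant at the next time. -/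
noncomputable def G (a : ℤ) (n : ℕ) (x : Config 1 Sy) : ℝ≥0∞ :=
  ∏ k ∈ Finset.range n, z x (a + k)

theorem G_zero (a : ℤ) (x : Config 1 Sy) : G a 0 x = 1 := by
  unfold G; simp

theorem G_succ_right (a : ℤ) (n : ℕ) (x : Config 1 Sy) :
    G a (n + 1) x = G a n x * z x (a + n) := by
  unfold G; exact Finset.prod_range_succ _ n

theorem G_succ_left (a : ℤ) (n : ℕ) (x : Config 1 Sy) :
    G a (n + 1) x = G (a + 1) n x * z x a := by
  unfold G
  rw [Finset.prod_range_succ']
  congr 1
  · apply Finset.prod_congr rfl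
    intro k _
    congr 1
    push_cast
    ring
  · congr 1
    push_cast
    ring

theorem G_dependsOn (a : ℤ) (n : ℕ) : DependsOn (G a n)
    (((Finset.Icc a (a + n + 2)).image s : Finset (Site 1)) : Set (Site 1)) := by
  intro x y hxy
  unfold G
  apply Finset.prod_congr rfl
  intro k hk
  rw [Finset.mem_range] at hk
  have h : ∀ i : ℤ, a ≤ i → i ≤ a + n + 2 → x (s i) = y (s i) := by
    intro i h1 h2
    apply hxy
    exact Finset.mem_coe.2 (Finset.mem_image_of_mem s (Finset.mem_Icc.2 ⟨h1, h2⟩))
  unfold z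
  rw [h (a + k + 1) (by omega) (by omega),
    h (a + k + 2) (by omega) (by omega)]

theorem G_split (a : ℤ) (n : ℕ) (y : Config 1 Sy) :
    G a (n + 1) y = β (y (s (a + 1))) *
      (∏ k ∈ Finset.range n, (β (y (s (a + 2 + k))) * γ (y (s (a + 2 + k))))) *
        γ (y (s (a + 2 + n))) := by
  have e1 : G a (n + 1) y = (∏ k ∈ Finset.range (n + 1), β (y (s (a + k + 1)))) *
      ∏ k ∈ Finset.range (n + 1), γ (y (s (a + k + 2))) := by
    unfold G z
    rw [← Finset.prod_mul_distrib]
  rw [e1, Finset.prod_range_succ', Finset.prod_range_succ, Finset.prod_mul_distrib]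
  have e2 : ∀ k : ℕ, a + ((k + 1 : ℕ) : ℤ) + 1 = a + 2 + k := fun k => by push_cast; ring
  have e3 : ∀ k : ℕ, a + (k : ℤ) + 2 = a + 2 + k := fun k => by ring
  have e4 : a + ((0 : ℕ) : ℤ) + 1 = a + 1 := by push_cast; ring
  simp only [e2, e3, e4]
  ring

/-- The interval duality. -/
theorem op_G (a : ℤ) (n : ℕ) (x : Config 1 Sy) :
    Φ.op (G a (n + 1)) x =
      (G (a + 2) n x + G (a + 1) (n + 1) x + G (a + 2) (n + 1) x + G (a + 1) (n + 2) x) / 4 := by
  have h1 : Φ.op (G a (n + 1)) x = Φ.op (fun y => β (y (s (a + 1))) *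
      (∏ k ∈ Finset.range n, (β (y (s (a + 2 + k))) * γ (y (s (a + 2 + k))))) *
        γ (y (s (a + 2 + n)))) x := by
    have : G a (n + 1) = (fun y => β (y (s (a + 1))) *
      (∏ k ∈ Finset.range n, (β (y (s (a + 2 + k))) * γ (y (s (a + 2 + k))))) *
        γ (y (s (a + 2 + n)))) := by
      funext y
      exact G_split a n y
    rw [this]
  have d1 := dependsOn_site β (a + 1)
  have d2 := dependsOn_range (fun w => β w * γ w) (a + 2) n
  have d3 := dependsOn_site γ (a + 2 + n)
  have d12 : DependsOn (fun y : Config 1 Sy => β (y (s (a + 1))) *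
      (∏ k ∈ Finset.range n, (β (y (s (a + 2 + k))) * γ (y (s (a + 2 + k))))))
      (({s (a + 1)} ∪ (Finset.range n).image (fun k : ℕ => s (a + 2 + k)) : Finset (Site 1)) :
        Set (Site 1)) := by
    intro y y' hyy
    have f1 := d1 (fun i hi => hyy i (by rw [Finset.coe_union]; exact Or.inl hi))
    have f2 := d2 (fun i hi => hyy i (by rw [Finset.coe_union]; exact Or.inr hi))
    simp only at f1 f2
    show β (y (s (a + 1))) * _ = β (y' (s (a + 1))) * _
    rw [f1, f2]
  have e1 : Φ.op (fun y => β (y (s (a + 1))) *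
      (∏ k ∈ Finset.range n, (β (y (s (a + 2 + k))) * γ (y (s (a + 2 + k))))) *
        γ (y (s (a + 2 + n)))) x = (Φ.op (fun y => β (y (s (a + 1))) *
      (∏ k ∈ Finset.range n, (β (y (s (a + 2 + k))) * γ (y (s (a + 2 + k)))))) x) *
        Φ.op (fun y => γ (y (s (a + 2 + n)))) x := by
    have := Φ.op_mul d12 d3 (by
      rw [Finset.disjoint_singleton_right, Finset.mem_union, Finset.mem_singleton, Finset.mem_image]
      rintro (h | ⟨k, hk, h⟩)
      · have := s_inj h
        omega
      · have := s_inj h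
        rw [Finset.mem_range] at hk
        omega)
    exact congrFun this x
  have e2 : Φ.op (fun y => β (y (s (a + 1))) *
      (∏ k ∈ Finset.range n, (β (y (s (a + 2 + k))) * γ (y (s (a + 2 + k)))))) x =
      Φ.op (fun y => β (y (s (a + 1)))) x *
        Φ.op (fun y => ∏ k ∈ Finset.range n, (β (y (s (a + 2 + k))) * γ (y (s (a + 2 + k))))) x := by
    have := Φ.op_mul d1 d2 (by
      rw [Finset.disjoint_singleton_left, Finset.mem_image]
      rintro ⟨k, hk, h⟩
      have := s_inj h
      omega)
    exact congrFun this x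
  have e3 := op_range (fun w => β w * γ w) (a + 2) n x
  simp only [int_βγ] at e3
  rw [h1, e1, e2, op_site, op_site, int_β, int_γ, e3]
  have g0 : ∏ k ∈ Finset.range n, z x (a + 2 + k) = G (a + 2) n x := rfl
  rw [g0]
  have g1 : G (a + 1) (n + 1) x = G (a + 2) n x * z x (a + 1) := by
    rw [G_succ_left, add_assoc]; rfl
  have g2 : G (a + 2) (n + 1) x = G (a + 2) n x * z x (a + 2 + n) := G_succ_right _ _ _
  have g3 : G (a + 1) (n + 2) x = G (a + 2) n x * z x (a + 2 + n) * z x (a + 1) := by
    rw [show n + 2 = (n + 1) + 1 by rfl, G_succ_left, add_assoc, ← G_succ_right]; rfl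
  rw [g1, g2, g3]
  rw [ENNReal.div_eq_inv_mul, ENNReal.div_eq_inv_mul, ENNReal.div_eq_inv_mul]
  have : (4 : ℝ≥0∞)⁻¹ = 2⁻¹ * 2⁻¹ := by
    rw [← ENNReal.mul_inv (by simp) (by simp)]; norm_num
  rw [this]
  ring

/-! ### Iteration -/

theorem op_iterate_add {f g : Config 1 Sy → ℝ≥0∞} {A B : Finset (Site 1)}
    (hf : DependsOn f A) (hg : DependsOn g B) (t : ℕ) (x : Config 1 Sy) :
    Φ.op^[t] (fun y => f y + g y) x = Φ.op^[t] f x + Φ.op^[t] g x := by
  induction t generalizing f g A B with
  | zero => rfl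
  | succ t ih =>
    have e : Φ.op (fun y => f y + g y) = fun y => Φ.op f y + Φ.op g y := by
      funext y
      exact lintegral_add_left (PCA.measurable_of_dependsOn hf) _
    simp only [Function.iterate_succ, Function.comp_apply]
    rw [e]
    exact ih (Φ.op_dependsOn hf) (Φ.op_dependsOn hg)

theorem op_iterate_div {f : Config 1 Sy → ℝ≥0∞} {A : Finset (Site 1)}
    (hf : DependsOn f A) (t : ℕ) (x : Config 1 Sy) :
    Φ.op^[t] (fun y => f y / 4) x = Φ.op^[t] f x / 4 := by
  induction t generalizing f A with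
  | zero => rfl
  | succ t ih =>
    have e : Φ.op (fun y => f y / 4) = fun y => Φ.op f y / 4 := by
      funext y
      unfold PCA.op
      simp only [div_eq_mul_inv]
      exact lintegral_mul_const _ (PCA.measurable_of_dependsOn hf)
    simp only [Function.iterate_succ, Function.comp_apply]
    rw [e]
    exact ih (Φ.op_dependsOn hf)

theorem dependsOn_add {f g : Config 1 Sy → ℝ≥0∞} {A B : Finset (Site 1)}
    (hf : DependsOn f A) (hg : DependsOn g B) :
    DependsOn (fun y => f y + g y) ((A ∪ B : Finset (Site 1)) : Set (Site 1)) := by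
  intro x y hxy
  have e1 : f x = f y := hf (fun i hi => hxy i (by
    rw [Finset.coe_union]; exact Or.inl hi))
  have e2 : g x = g y := hg (fun i hi => hxy i (by
    rw [Finset.coe_union]; exact Or.inr hi))
  simp only [e1, e2]

theorem op_iterate_G_zero (a : ℤ) (t : ℕ) (x : Config 1 Sy) : Φ.op^[t] (G a 0) x = 1 := by
  have e0 : G a 0 = fun _ => 1 := by funext y; exact G_zero a y
  rw [e0]
  induction t with
  | zero => rfl
  | succ t ih =>
    rw [Function.iterate_succ_apply]
    have : Φ.op (fun _ => (1 : ℝ≥0∞)) = fun _ => 1 := by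
      funext y; simp [PCA.op]
    rw [this, ih]

theorem op_iterate_G_succ (t : ℕ) (a : ℤ) (n : ℕ) (x : Config 1 Sy) :
    Φ.op^[t + 1] (G a (n + 1)) x =
      (Φ.op^[t] (G (a + 2) n) x + Φ.op^[t] (G (a + 1) (n + 1)) x +
        Φ.op^[t] (G (a + 2) (n + 1)) x + Φ.op^[t] (G (a + 1) (n + 2)) x) / 4 := by
  have d1 := dependsOn_add (G_dependsOn (a + 2) n) (G_dependsOn (a + 1) (n + 1))
  have d2 := dependsOn_add d1 (G_dependsOn (a + 2) (n + 1))
  have d3 := dependsOn_add d2 (G_dependsOn (a + 1) (n + 2))
  have e : Φ.op (G a (n + 1)) = fun y =>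
      (G (a + 2) n y + G (a + 1) (n + 1) y + G (a + 2) (n + 1) y + G (a + 1) (n + 2) y) / 4 := by
    funext y
    exact op_G a n y
  rw [Function.iterate_succ_apply, e, op_iterate_div d3, op_iterate_add d2 (G_dependsOn (a + 1) (n + 2)),
    op_iterate_add d1 (G_dependsOn (a + 2) (n + 1)),
    op_iterate_add (G_dependsOn (a + 2) n) (G_dependsOn (a + 1) (n + 1))]

/-- The decay of the walkers, uniformly over the initial configuration. -/
theorem le_op_iterate_G (t : ℕ) : ∀ (a : ℤ) (n : ℕ) (x : Config 1 Sy),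
    ENNReal.ofReal (W t n) ≤ Φ.op^[t] (G a n) x := by
  induction t with
  | zero =>
    intro a n x
    cases n with
    | zero => simp [W, G_zero]
    | succ n => simp [W]
  | succ t ih =>
    intro a n x
    cases n with
    | zero => rw [op_iterate_G_zero]; simp [W]
    | succ n =>
      rw [op_iterate_G_succ, ofReal_W_succ]
      gcongr
      · exact ih _ _ _
      · exact ih _ _ _
      · exact ih _ _ _
      · exact ih _ _ _

/-- A configuration in which all sites are occupied. -/
def full : Config 1 Sy := fun _ => 1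

theorem op_iterate_G_full (t : ℕ) : ∀ (a : ℤ) (n : ℕ),
    Φ.op^[t] (G a n) full = ENNReal.ofReal (W t n) := by
  induction t with
  | zero =>
    intro a n
    cases n with
    | zero => simp [W, G_zero]
    | succ n =>
      have h : z full (a + ((n : ℕ) : ℤ)) = 0 := by
        unfold z β full
        simp
      simp only [Function.iterate_zero, id_eq]
      rw [G_succ_right, h]
      simp [W]
  | succ t ih =>
    intro a n
    cases n with
    | zero => rw [op_iterate_G_zero]; simp [W]
    | succ n =>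
      rw [op_iterate_G_succ, ofReal_W_succ, ih, ih, ih, ih]

/-! ### The polynomial lower bound -/

theorem one_sub_W_ge (t : ℕ) : ∀ n : ℕ, 1 ≤ n → (n : ℝ) / (n + t) ≤ 1 - W t n := by
  induction t with
  | zero =>
    intro n hn
    obtain ⟨m, rfl⟩ : ∃ m, n = m + 1 := ⟨n - 1, by omega⟩
    have : ((m + 1 : ℕ) : ℝ) ≠ 0 := by positivity
    simp [W]
    rw [div_self (by positivity)]
  | succ t ih =>
    intro n hn
    obtain ⟨m, rfl⟩ : ∃ m, n = m + 1 := ⟨n - 1, by omega⟩
    have h2 := ih (m + 1) (by omega)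
    have h3 := ih (m + 2) (by omega)
    have h1 : (m : ℝ) / (m + t) ≤ 1 - W t m := by
      rcases Nat.eq_zero_or_pos m with h0 | h0
      · subst h0
        simp [W_zero_right]
      · exact ih m h0
    have e : W (t + 1) (m + 1) = (W t m + 2 * W t (m + 1) + W t (m + 2)) / 4 := by simp only [W]
    rw [e]
    have key : ((m + 1 : ℕ) : ℝ) / ((m + 1 : ℕ) + (t + 1 : ℕ)) ≤
        ((m : ℝ) / (m + t) + 2 * (((m + 1 : ℕ) : ℝ) / ((m + 1 : ℕ) + t)) +
          (((m + 2 : ℕ) : ℝ) / ((m + 2 : ℕ) + t))) / 4 := by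
      push_cast
      have hm : (0 : ℝ) ≤ m := Nat.cast_nonneg m
      have ht : (0 : ℝ) ≤ t := Nat.cast_nonneg t
      have p1 : (0 : ℝ) < (m : ℝ) + 1 + t := by positivity
      have p2 : (0 : ℝ) < (m : ℝ) + 2 + t := by positivity
      have p3 : (0 : ℝ) < (m : ℝ) + 1 + (t + 1) := by positivity
      rcases Nat.eq_zero_or_pos m with h0 | h0
      · subst h0
        rw [← sub_nonneg]
        have : (((0 : ℕ) : ℝ) / ((0 : ℕ) + t) + 2 * ((((0 : ℕ) : ℝ) + 1) / (((0 : ℕ) : ℝ) + 1 + t)) +
            ((((0 : ℕ) : ℝ) + 2) / (((0 : ℕ) : ℝ) + 2 + t))) / 4 -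
            (((0 : ℕ) : ℝ) + 1) / (((0 : ℕ) : ℝ) + 1 + (t + 1)) =
            1 / (2 * (1 + t) * (2 + t)) := by
          have q1 : (1 : ℝ) + t ≠ 0 := by positivity
          have q2 : (2 : ℝ) + t ≠ 0 := by positivity
          have q3 : (1 : ℝ) + (t + 1) ≠ 0 := by positivity
          simp only [Nat.cast_zero, zero_add, zero_div]
          field_simp
          ring
        rw [this]
        positivity
      · have p0 : (0 : ℝ) < (m : ℝ) + t := by
          have : (0 : ℝ) < m := by exact_mod_cast h0
          positivity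
        rw [← sub_nonneg]
        have : ((m : ℝ) / (m + t) + 2 * (((m : ℝ) + 1) / ((m : ℝ) + 1 + t)) +
            (((m : ℝ) + 2) / ((m : ℝ) + 2 + t))) / 4 - ((m : ℝ) + 1) / ((m : ℝ) + 1 + (t + 1)) =
            ((4 * m + 2) * (m + t) + 2 * m) / (4 * (m + t) * (m + 1 + t) * (m + 2 + t)) := by
          have q3 : (m : ℝ) + 1 + (t + 1) ≠ 0 := p3.ne'
          have q2 := p2.ne'
          have q1 := p1.ne'
          have q0 := p0.ne'
          field_simp
          ring
        rw [this]
        positivity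
    linarith

end Pool.Agent.W34.CRW
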