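import Mathlib
import Pool.Agent.W34.CRW.Basic

set_option autoImplicit false

open MeasureTheory ProbabilityTheory Filter Topology
open scoped ENNReal Pointwise

/-!
# A uniformly ergodic cellular automaton that is not exponentially ergodic, part 2
-/

namespace Pool.Agent.W34.CRW

open Pool.Agent.H443R3
open Pool.Agent.H443R3.Movers (s s_add s_inj s_apply_zero W W_zero_right W_nonneg W_le_one W_mono
  W_tendsto ofReal_W_succ)

/-- No walker. -/
noncomputable def vac (w : Sy) : ℝ≥0∞ := if w = 0 then 1 else 0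

theorem op_vac (j : ℤ) : Φ.op (fun y => vac (y (s j))) = G j 1 := by
  funext x
  rw [op_site, nu_eq, lintegral_law]
  unfold G vac
  simp only [Finset.prod_range_one, Nat.cast_zero, add_zero, z_eq]
  split_ifs <;> simp_all

theorem meas_site (j : ℤ) (p : Sy → Prop) : MeasurableSet {y : Config 1 Sy | p (y (s j))} :=
  (measurable_pi_apply (X := fun _ : Site 1 => Sy) (s j)) (MeasurableSet.of_discrete (s := {w | p w}))

theorem measure_vac (ν : Measure (Config 1 Sy)) (j : ℤ) :
    ν {y | y (s j) = 0} = ∫⁻ y, vac (y (s j)) ∂ν := by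
  have h1 : (fun y : Config 1 Sy => vac (y (s j))) =
      ({y | y (s j) = 0} : Set (Config 1 Sy)).indicator (fun _ => 1) := by
    funext y
    unfold vac
    by_cases h : y (s j) = 0
    · rw [if_pos h, Set.indicator_of_mem]; exact h
    · rw [if_neg h, Set.indicator_of_notMem]; exact h
  rw [h1, lintegral_indicator (meas_site j (fun w => w = 0)), lintegral_const, one_mul,
    Measure.restrict_apply MeasurableSet.univ, Set.univ_inter]

theorem vac_succ (μ : Measure (Config 1 Sy)) (j : ℤ) (t : ℕ) :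
    (Φ.evolve^[t + 1] μ) {y | y (s j) = 0} = ∫⁻ x, Φ.op^[t] (G j 1) x ∂μ := by
  rw [measure_vac, Φ.lintegral_iterate μ (t + 1) (dependsOn_site vac j),
    Function.iterate_succ, Function.comp_apply, op_vac]

theorem vac_ge (μ : Measure (Config 1 Sy)) [IsProbabilityMeasure μ] (j : ℤ) (t : ℕ) :
    ENNReal.ofReal (W t 1) ≤ (Φ.evolve^[t + 1] μ) {y | y (s j) = 0} := by
  rw [vac_succ]
  calc ENNReal.ofReal (W t 1) = ∫⁻ _, ENNReal.ofReal (W t 1) ∂μ := by
        rw [lintegral_const, measure_univ, mul_one]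
    _ ≤ _ := lintegral_mono (fun x => le_op_iterate_G t j 1 x)

theorem vac_full (j : ℤ) (t : ℕ) :
    (Φ.evolve^[t + 1] (Measure.dirac full)) {y | y (s j) = 0} = ENNReal.ofReal (W t 1) := by
  rw [vac_succ, lintegral_dirac' _ (PCA.measurable_of_dependsOn
    (Φ.op_iterate_dependsOn t (G_dependsOn j 1))), op_iterate_G_full]

/-- The probability that a site is occupied at time `t + 1`. -/
theorem occ_le (μ : Measure (Config 1 Sy)) [IsProbabilityMeasure μ] (i : Site 1) (t : ℕ) :
    ((Φ.evolve^[t + 1] μ) {y | y i ≠ 0}).toReal ≤ 1 - W t 1 := by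
  have hp := Φ.isProbabilityMeasure_iterate μ (t + 1)
  have hi : s (i 0) = i := s_apply_zero i
  rw [← hi]
  have h1 : ({y | y (s (i 0)) ≠ 0} : Set (Config 1 Sy)) = {y | y (s (i 0)) = 0}ᶜ := rfl
  have h2 := vac_ge μ (i 0) t
  have h3 : W t 1 ≤ ((Φ.evolve^[t + 1] μ) {y | y (s (i 0)) = 0}).toReal := by
    rw [← ENNReal.ofReal_le_iff_le_toReal (measure_ne_top _ _)]
    exact h2
  rw [h1, prob_compl_eq_one_sub (meas_site _ (fun w => w = 0)),
    ENNReal.toReal_sub_of_le prob_le_one ENNReal.one_ne_top, ENNReal.toReal_one]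
  linarith

theorem cyl_diff (μ : Measure (Config 1 Sy)) [IsProbabilityMeasure μ] (A : Finset (Site 1))
    (u : A → Sy) (t : ℕ) :
    |((Φ.evolve^[t + 1] μ) (cyl A u)).toReal -
      ((Measure.dirac (fun _ => 0) : Measure (Config 1 Sy)) (cyl A u)).toReal| ≤
        A.card * (1 - W t 1) := by
  have hp := Φ.isProbabilityMeasure_iterate μ (t + 1)
  have hW : 0 ≤ 1 - W t 1 := by linarith [W_le_one t 1]
  rw [Measure.dirac_apply' _ (measurableSet_cyl A u)]
  by_cases h : ∀ a : A, u a = 0
  · have hmem : (fun _ => 0 : Config 1 Sy) ∈ cyl A u := fun a => (h a).symm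
    rw [Set.indicator_of_mem hmem]
    have h3 : (Φ.evolve^[t + 1] μ) (cyl A u)ᶜ ≤
        ∑ k ∈ A, (Φ.evolve^[t + 1] μ) {y | y k ≠ 0} := by
      refine (measure_mono ?_).trans (measure_biUnion_finset_le A _)
      intro x hx
      by_contra hcon
      apply hx
      intro k
      rw [h k]
      by_contra hne
      exact hcon (Set.mem_biUnion k.2 hne)
    have h4 : ((Φ.evolve^[t + 1] μ) (cyl A u)ᶜ).toReal ≤ A.card * (1 - W t 1) := by
      have h5 := ENNReal.toReal_mono (by
        rw [ENNReal.sum_ne_top]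
        exact fun k _ => measure_ne_top _ _) h3
      rw [ENNReal.toReal_sum (fun k _ => measure_ne_top _ _)] at h5
      refine h5.trans ?_
      rw [← nsmul_eq_mul]
      exact Finset.sum_le_card_nsmul _ _ _ (fun k _ => occ_le μ k t)
    rw [prob_compl_eq_one_sub (measurableSet_cyl A u),
      ENNReal.toReal_sub_of_le prob_le_one ENNReal.one_ne_top, ENNReal.toReal_one] at h4
    have h6 : ((Φ.evolve^[t + 1] μ) (cyl A u)).toReal ≤ 1 := by
      have := ENNReal.toReal_mono ENNReal.one_ne_top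
        (prob_le_one (μ := Φ.evolve^[t + 1] μ) (s := cyl A u))
      simpa using this
    simp only [Pi.one_apply, ENNReal.toReal_one]
    rw [abs_le]
    constructor <;> linarith
  · have h' : ∃ a : A, u a ≠ 0 := by
      by_contra hcon
      apply h
      intro k
      by_contra hne
      exact hcon ⟨k, hne⟩
    obtain ⟨k, hne⟩ := h'
    rw [Set.indicator_of_notMem (show (fun _ => 0 : Config 1 Sy) ∉ cyl A u from
      fun h2 => hne (h2 k).symm), ENNReal.toReal_zero, sub_zero, abs_of_nonneg ENNReal.toReal_nonneg]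
    have h1 : (Φ.evolve^[t + 1] μ) (cyl A u) ≤ (Φ.evolve^[t + 1] μ) {y | y k ≠ 0} := by
      apply measure_mono
      intro x hx
      show x k ≠ 0
      rw [hx k]
      exact hne
    have h2 := ENNReal.toReal_mono (measure_ne_top _ _) h1
    have h3 := occ_le μ k t
    have hc : (1 : ℝ) ≤ A.card := by
      have : 0 < A.card := Finset.card_pos.2 ⟨k, k.2⟩
      exact_mod_cast this
    calc _ ≤ 1 - W t 1 := h2.trans h3
      _ ≤ A.card * (1 - W t 1) := by nlinarith

/-- Uniform ergodicity. -/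
theorem uniform (A : Finset (Site 1)) (u : A → Sy) (ε : ℝ) (hε : 0 < ε) :
    ∃ T : ℕ, ∀ t : ℕ, T ≤ t → ∀ μ : Measure (Config 1 Sy), IsProbabilityMeasure μ →
      |((Φ.evolve^[t] μ) (cyl A u)).toReal -
        ((Measure.dirac (fun _ => 0) : Measure (Config 1 Sy)) (cyl A u)).toReal| ≤ ε := by
  have h1 : Tendsto (fun t => (A.card : ℝ) * (1 - W t 1)) atTop (𝓝 0) := by
    have := (W_tendsto.const_sub 1).const_mul (A.card : ℝ)
    simpa using this
  obtain ⟨T, hT⟩ := (h1.eventually_le_const hε).exists_forall_of_atTop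
  refine ⟨T + 1, fun t ht μ hμ => ?_⟩
  obtain ⟨t', rfl⟩ : ∃ t', t = t' + 1 := ⟨t - 1, by omega⟩
  exact (cyl_diff μ A u t').trans (hT t' (by omega))

theorem ergodic : ErgodicWith Φ (Measure.dirac (fun _ => 0) : Measure (Config 1 Sy)) := by
  apply ergodicWith_of_cylinders
  intro μ hμ A u
  have hp : ∀ n, IsProbabilityMeasure (Φ.evolve^[n] μ) := fun n =>
    Φ.isProbabilityMeasure_iterate μ n
  rw [← ENNReal.tendsto_toReal_iff (fun n => measure_ne_top _ _) (measure_ne_top _ _)]
  rw [Metric.tendsto_atTop]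
  intro ε hε
  obtain ⟨T, hT⟩ := uniform A u (ε / 2) (by linarith)
  refine ⟨T, fun t ht => ?_⟩
  rw [Real.dist_eq]
  have := hT t ht μ hμ
  linarith

/-- The vacancy of the origin, as a cylinder. -/
theorem cyl_origin : cyl ({s 0} : Finset (Site 1)) (fun _ => (0 : Sy)) = {y | y (s 0) = 0} := by
  ext y
  constructor
  · intro h
    exact h ⟨s 0, by simp⟩
  · intro h a
    have : (a : Site 1) = s 0 := Finset.mem_singleton.1 a.2
    show y a = 0
    rw [this]
    exact h

theorem slow (t : ℕ) : 1 / ((t : ℝ) + 1) ≤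
    |((Φ.evolve^[t] (Measure.dirac full)) (cyl ({s 0} : Finset (Site 1)) (fun _ => (0 : Sy)))).toReal -
      ((Measure.dirac (fun _ => 0) : Measure (Config 1 Sy))
        (cyl ({s 0} : Finset (Site 1)) (fun _ => (0 : Sy)))).toReal| := by
  have hπ : ((Measure.dirac (fun _ => 0) : Measure (Config 1 Sy))
      (cyl ({s 0} : Finset (Site 1)) (fun _ => (0 : Sy)))).toReal = 1 := by
    have hm : (fun _ => 0 : Config 1 Sy) ∈ cyl ({s 0} : Finset (Site 1)) (fun _ => (0 : Sy)) :=
      fun a => rfl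
    rw [Measure.dirac_apply_of_mem hm]
    exact ENNReal.toReal_one
  rw [hπ, cyl_origin]
  cases t with
  | zero =>
    have h1 : (Φ.evolve^[0] (Measure.dirac full)) {y | y (s 0) = 0} = 0 := by
      simp only [Function.iterate_zero, id_eq]
      rw [Measure.dirac_apply' _ (meas_site 0 (fun w => w = 0)), Set.indicator_of_notMem]
      simp [full]
    rw [h1]
    simp
  | succ t =>
    rw [vac_full, ENNReal.toReal_ofReal (W_nonneg t 1)]
    have h1 := one_sub_W_ge t 1 le_rfl
    have h2 := W_le_one t 1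
    rw [abs_of_nonpos (by linarith)]
    push_cast at h1 ⊢
    have h3 : 1 / ((t : ℝ) + 1 + 1) ≤ 1 / (1 + t) := by
      apply one_div_le_one_div_of_le <;> [positivity; linarith]
    linarith

theorem not_exponential (K γ : ℝ) (hγ : γ < 1) (h : ∀ t : ℕ, 1 / ((t : ℝ) + 1) ≤ K * γ ^ t) :
    False := by
  rcases lt_or_ge γ 0 with h0 | h0
  · have h1 := h 1
    have h2 := h 2
    norm_num at h1 h2
    have hK : K < 0 := by nlinarith
    nlinarith [sq_nonneg γ]
  · have h1 := tendsto_self_mul_const_pow_of_lt_one h0 hγ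
    have h2 := tendsto_pow_atTop_nhds_zero_of_lt_one h0 hγ
    have h3 : Tendsto (fun t : ℕ => K * ((t : ℝ) * γ ^ t + γ ^ t)) atTop (𝓝 0) := by
      simpa using (h1.add h2).const_mul K
    obtain ⟨t, ht⟩ := (h3.eventually_lt_const (show (0 : ℝ) < 1 by norm_num)).exists
    have h4 := h t
    have h5 : (0 : ℝ) < t + 1 := by positivity
    rw [div_le_iff₀ h5] at h4
    nlinarith

end Pool.Agent.W34.CRW
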